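import Mathlib

/-! The partial fraction expansion with the prescribed signs. -/

set_option autoImplicit false
open Finset Polynomial

namespace Pool.Agent.D0H13.Tad

theorem exists_linear (s : Finset ℕ) (D : ℝ[X]) (p : ℕ → ℝ) (hD : D.Monic)
    (hdeg : D.natDegree = s.card + 1) (hp : Set.InjOn p s) :
    ∃ c : ℝ, ∀ x : ℝ, (∀ k ∈ s, x ≠ p k) → D.eval x = 0 →
      x - c + ∑ k ∈ s, (Lagrange.nodalWeight s p k * D.eval (p k)) / (x - p k) = 0 := by
  classical
  set W := Lagrange.nodal s p with hW
  have hWm : W.Monic := Lagrange.nodal_monic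
  have hWd : W.natDegree = s.card := Lagrange.natDegree_nodal
  have hlc : (D /ₘ W).Monic := by
    unfold Monic
    rw [leadingCoeff_divByMonic_of_monic hWm, hD.leadingCoeff]
    rw [degree_eq_natDegree hWm.ne_zero, degree_eq_natDegree hD.ne_zero, hWd, hdeg]
    exact_mod_cast Nat.le_succ _
  have hnd : (D /ₘ W).natDegree = 1 := by
    rw [natDegree_divByMonic _ hWm, hdeg, hWd]; omega
  have hq := hlc.eq_X_add_C hnd
  set c := -(D /ₘ W).coeff 0 with hc
  have hR : D %ₘ W = Lagrange.interpolate s p (fun k => D.eval (p k)) := by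
    apply Lagrange.eq_interpolate_of_eval_eq _ hp
    · have := degree_modByMonic_lt D hWm
      rwa [hW, Lagrange.degree_nodal] at this
    · intro i hi
      have h1 := congrArg (eval (p i)) (modByMonic_add_div D W)
      rw [eval_add, eval_mul, hW, Lagrange.eval_nodal_at_node hi, zero_mul, add_zero] at h1
      exact h1
  refine ⟨c, fun x hx hDx => ?_⟩
  have h1 := congrArg (eval x) (modByMonic_add_div D W)
  rw [eval_add, eval_mul, hDx, hR, Lagrange.eval_interpolate_not_at_node _ hx, hq, eval_add,
    eval_X, eval_C, ← mul_add] at h1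
  have h2 := (mul_eq_zero.1 h1).resolve_left (Lagrange.eval_nodal_not_at_node hx)
  rw [hc, ← h2, add_comm, sub_neg_eq_add]
  congr 1
  refine Finset.sum_congr rfl fun k _ => ?_
  rw [div_eq_mul_inv]
  ring

/-- sign of a product whose first `k` factors are negative and the others positive -/
theorem sign_prod (N k : ℕ) (hk : k ≤ N) (f : ℕ → ℝ) (h1 : ∀ i < k, f i < 0)
    (h2 : ∀ i, k ≤ i → i < N → 0 < f i) : 0 < (-1) ^ k * ∏ i ∈ range N, f i := by
  rw [← Finset.prod_range_mul_prod_Ico f hk, ← mul_assoc]
  refine mul_pos ?_ (Finset.prod_pos fun i hi => ?_)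
  · have : (-1 : ℝ) ^ k * ∏ i ∈ range k, f i = ∏ i ∈ range k, (-f i) := by
      rw [Finset.prod_neg, Finset.card_range]
    rw [this]
    exact Finset.prod_pos fun i hi => by
      have := h1 i (Finset.mem_range.1 hi)
      linarith
  · rw [Finset.mem_Ico] at hi
    exact h2 i hi.1 hi.2

/-- the same with the `k`-th factor left out -/
theorem sign_prod_erase (N k : ℕ) (hk : k < N) (f : ℕ → ℝ) (h1 : ∀ i < k, f i < 0)
    (h2 : ∀ i, k < i → i < N → 0 < f i) : 0 < (-1) ^ k * ∏ i ∈ (range N).erase k, f i := by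
  have h3 := sign_prod N k hk.le (Function.update f k 1) (fun i hi => by
    rw [Function.update_of_ne (by omega)]; exact h1 i hi) (fun i hi hi' => by
    rcases eq_or_lt_of_le hi with h | h
    · subst h
      rw [Function.update_self]
      exact one_pos
    · rw [Function.update_of_ne (by omega)]; exact h2 i h hi')
  rw [← Finset.mul_prod_erase _ _ (Finset.mem_range.2 hk), Function.update_self, one_mul] at h3
  convert h3 using 2
  refine Finset.prod_congr rfl fun i hi => ?_
  rw [Function.update_of_ne (Finset.mem_erase.1 hi).1]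

theorem exists_weights (n : ℕ) (x : ℕ → ℝ) (hx2 : ∀ k < n + 2, x k < 2)
    (hx : ∀ j k, j < k → k < n + 2 → x k < x j) :
    ∃ (a0 β : ℝ) (s ν : Fin n → ℝ), β ≠ 0 ∧ (∀ j, s j ≠ 0) ∧ Function.Injective ν ∧
      (∀ i < n + 2, ∀ j, x i ≠ ν j) ∧
      ∀ i < n + 2, x i - a0 - ∑ j, s j ^ 2 / (x i - ν j) = β ^ 2 * (-2 + 3 / (5 / 2 - x i)) := by
  classical
  set p : ℕ → ℝ := fun k => if k = 0 then 5 / 2 else (x k + x (k + 1)) / 2 with hp
  have hp0 : p 0 = 5 / 2 := by simp [hp]
  have hps : ∀ k, k ≠ 0 → p k = (x k + x (k + 1)) / 2 := fun k hk => by simp [hp, hk]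
  have hpx : ∀ k, k ≠ 0 → k < n + 1 → x (k + 1) < p k ∧ p k < x k := by
    intro k hk hkn
    have := hx k (k + 1) (by omega) (by omega)
    rw [hps k hk]
    constructor <;> linarith
  have hxle : ∀ j k, j ≤ k → k < n + 2 → x k ≤ x j := by
    intro j k hjk hk
    rcases eq_or_lt_of_le hjk with h | h
    · rw [h]
    · exact (hx j k h hk).le
  have hpd : ∀ j k, j < k → k < n + 1 → p k < p j := by
    intro j k hjk hk
    have h1 := hpx k (by omega) hk
    rcases eq_or_ne j 0 with h | h
    · rw [h, hp0]
      have := hx2 k (by omega)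
      linarith
    · have h2 := hpx j h (by omega)
      have h3 := hxle (j + 1) k (by omega) (by omega)
      linarith
  have hpinj : Set.InjOn p (range (n + 1)) := by
    intro j hj k hk hjk
    rw [Finset.mem_coe, Finset.mem_range] at hj hk
    rcases lt_trichotomy j k with h | h | h
    · exact absurd hjk (hpd j k h hk).ne'
    · exact h
    · exact absurd hjk (hpd k j h hj).ne
  set D : ℝ[X] := Lagrange.nodal (range (n + 2)) x with hD
  have hxp : ∀ i < n + 2, ∀ k < n + 1, x i ≠ p k := by
    intro i hi k hk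
    rcases eq_or_ne k 0 with h | h
    · rw [h, hp0]
      have := hx2 i hi
      intro h'
      linarith
    · have h2 := hpx k h hk
      rcases Nat.lt_or_ge k i with h3 | h3
      · have := hxle (k + 1) i (by omega) hi
        intro h'
        linarith
      · have := hxle i k h3 (by omega)
        intro h'
        linarith
  obtain ⟨c, hc⟩ := exists_linear (range (n + 1)) D p Lagrange.nodal_monic
    (by rw [hD, Lagrange.natDegree_nodal, Finset.card_range, Finset.card_range]) hpinj
  set ρ : ℕ → ℝ := fun k => Lagrange.nodalWeight (range (n + 1)) p k * D.eval (p k) with hρ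
  have hDe : ∀ y, D.eval y = ∏ i ∈ range (n + 2), (y - x i) := fun y => Lagrange.eval_nodal
  have hnw : ∀ k, Lagrange.nodalWeight (range (n + 1)) p k =
      (∏ l ∈ (range (n + 1)).erase k, (p k - p l))⁻¹ := by
    intro k
    rw [Lagrange.nodalWeight, Finset.prod_inv_distrib]
  have hW : ∀ k < n + 1, 0 < (-1) ^ k * ∏ l ∈ (range (n + 1)).erase k, (p k - p l) := by
    intro k hk
    refine sign_prod_erase (n + 1) k hk (fun l => p k - p l) (fun i hi => ?_) fun i hi hi' => ?_
    · have := hpd i k hi hk
      linarith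
    · have := hpd k i hi hi'
      linarith
  have hρ0 : 0 < ρ 0 := by
    have h1 := hW 0 (by omega)
    have h2 := sign_prod (n + 2) 0 (by omega) (fun i => p 0 - x i) (fun i hi => by omega)
      (fun i _ hi => by
        have := hx2 i hi
        simp only [hp0]
        linarith)
    rw [pow_zero, one_mul] at h1 h2
    simp only [hρ]
    rw [hnw, hDe]
    exact mul_pos (inv_pos.2 h1) h2
  have hρs : ∀ k, k ≠ 0 → k < n + 1 → ρ k < 0 := by
    intro k hk0 hk
    have h1 := hW k hk
    have h2 := sign_prod (n + 2) (k + 1) (by omega) (fun i => p k - x i) (fun i hi => by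
        have := (hpx k hk0 hk).2
        have := hxle i k (by omega) (by omega)
        linarith)
      (fun i hi hi' => by
        have := (hpx k hk0 hk).1
        have := hxle (k + 1) i hi hi'
        linarith)
    simp only [hρ]
    rw [hnw, hDe]
    set U := ∏ l ∈ (range (n + 1)).erase k, (p k - p l)
    set V := ∏ i ∈ range (n + 2), (p k - x i)
    have hU : U ≠ 0 := by
      intro h
      rw [h, mul_zero] at h1
      exact lt_irrefl _ h1
    have h3 : 0 < -(U * V) := by
      have := mul_pos h1 h2
      have e : (-1 : ℝ) ^ k * U * ((-1) ^ (k + 1) * V) = -(U * V) * ((-1) ^ k * (-1) ^ k) := by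
        rw [pow_succ]; ring
      rw [e, ← mul_pow] at this
      simpa using this
    have h4 : U⁻¹ * V = (U * V) / U ^ 2 := by
      field_simp
    rw [h4]
    exact div_neg_of_neg_of_pos (by linarith) (by positivity)
  refine ⟨c + 2 * (ρ 0 / 3), Real.sqrt (ρ 0 / 3), fun j => Real.sqrt (-ρ (j.val + 1)),
    fun j => p (j.val + 1), ?_, ?_, ?_, ?_, ?_⟩
  · exact (Real.sqrt_pos.2 (by linarith)).ne'
  · intro j
    have := hρs (j.val + 1) (by omega) (by omega)
    exact (Real.sqrt_pos.2 (by linarith)).ne'
  · intro j k hjk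
    have := hpinj (by simp) (by simp) hjk
    exact Fin.ext (by omega)
  · intro i hi j
    exact hxp i hi _ (by omega)
  · intro i hi
    have h1 := hc (x i) (fun k hk => hxp i hi k (Finset.mem_range.1 hk))
      (Lagrange.eval_nodal_at_node (Finset.mem_range.2 hi))
    rw [Finset.sum_range_succ', Finset.sum_range] at h1
    rw [Real.sq_sqrt (by linarith)]
    have h2 : ∑ j : Fin n, Real.sqrt (-ρ (j.val + 1)) ^ 2 / (x i - p (j.val + 1)) =
        - ∑ j : Fin n, ρ (j.val + 1) / (x i - p (j.val + 1)) := by
      rw [← Finset.sum_neg_distrib]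
      refine Finset.sum_congr rfl fun j _ => ?_
      have := hρs (j.val + 1) (by omega) (by omega)
      rw [Real.sq_sqrt (by linarith)]
      ring
    rw [h2]
    rw [hp0] at h1
    have h3 : x i - 5 / 2 ≠ 0 := by have := hx2 i hi; intro h; linarith
    have h4 : (5 / 2 - x i) ≠ 0 := by have := hx2 i hi; intro h; linarith
    have h5 : ρ 0 / 3 * (3 / (5 / 2 - x i)) = - (ρ 0 / (x i - 5 / 2)) := by
      rw [show x i - 5 / 2 = -(5 / 2 - x i) by ring, div_neg, neg_neg]
      ring
    have h6 : ρ 0 / 3 * (-2 + 3 / (5 / 2 - x i)) = - 2 * (ρ 0 / 3) - ρ 0 / (x i - 5 / 2) := by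
      rw [mul_add, h5]; ring
    rw [h6]
    simp only [hρ] at h1 ⊢
    rw [hp0]
    linarith

end Pool.Agent.D0H13.Tad
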