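import Pool.Agent.D0H13.Tad.Row
import Pool.Agent.D0H13.Tad.Weights

/-! The combination of the pseudo-inverses. -/

set_option autoImplicit false
open Finset

namespace Pool.Agent.D0H13.Tad

/-- more unknowns than equations -/
theorem exists_comb (n : ℕ) (x : ℕ → ℝ) (ν : Fin n → ℝ) :
    ∃ c : Fin (n + 2) → ℝ, c ≠ 0 ∧ ∑ t, c t = 0 ∧ ∀ j, ∑ t, c t / (x t - ν j) = 0 := by
  classical
  let W : Matrix (Fin (n + 1)) (Fin (n + 2)) ℝ := fun r t =>
    Fin.cases (1 : ℝ) (fun j => (x t - ν j)⁻¹) r
  have h1 : LinearMap.ker W.mulVecLin ≠ ⊥ := by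
    apply LinearMap.ker_ne_bot_of_finrank_lt
    simp
  obtain ⟨c, hc, hc0⟩ := (Submodule.ne_bot_iff _).1 h1
  rw [LinearMap.mem_ker, Matrix.mulVecLin_apply] at hc
  refine ⟨c, hc0, ?_, fun j => ?_⟩
  · have := congrFun hc 0
    simp only [Matrix.mulVec, dotProduct, W, Fin.cases_zero, Pi.zero_apply, one_mul] at this
    exact this
  · have := congrFun hc j.succ
    simp only [Matrix.mulVec, dotProduct, W, Fin.cases_succ, Pi.zero_apply] at this
    rw [← this]
    exact Finset.sum_congr rfl fun t _ => by rw [div_eq_mul_inv, mul_comm]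

/-- the values of the `S_k` determine the combination -/
theorem comb_zero (n M : ℕ) (hM : n + 3 ≤ M) (x : ℕ → ℝ)
    (hx : ∀ j k, j < k → k < n + 2 → x k < x j) (c : Fin (n + 2) → ℝ)
    (h : ∀ k, k + 1 ≤ M → ∑ t, c t * S (x t) k = 0) : c = 0 := by
  have key : ∀ j k, j + k + 1 ≤ M → ∑ t, c t * (x t ^ j * S (x t) k) = 0 := by
    intro j
    induction j with
    | zero =>
      intro k hk
      simp only [pow_zero, one_mul]
      exact h k (by omega)
    | succ j ih =>
      intro k hk
      rcases Nat.eq_zero_or_pos k with rfl | hk0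
      · simp [S_zero]
      · obtain ⟨k, rfl⟩ : ∃ k', k = k' + 1 := ⟨k - 1, by omega⟩
        have e1 := ih (k + 2) (by omega)
        have e2 := ih k (by omega)
        have e3 : ∑ t, c t * (x t ^ (j + 1) * S (x t) (k + 1)) =
            ∑ t, c t * (x t ^ j * S (x t) (k + 2)) + ∑ t, c t * (x t ^ j * S (x t) k) := by
          rw [← Finset.sum_add_distrib]
          refine Finset.sum_congr rfl fun t _ => ?_
          rw [S_succ]
          ring
        rw [e3, e1, e2, add_zero]
  refine Matrix.eq_zero_of_forall_pow_sum_mul_pow_eq_zero (f := fun t : Fin (n + 2) => x t) ?_ ?_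
  · intro i j hij
    rcases lt_trichotomy i.val j.val with h1 | h1 | h1
    · exact absurd hij (hx _ _ h1 j.2).ne'
    · exact Fin.ext h1
    · exact absurd hij (hx _ _ h1 i.2).ne
  · intro i
    have := key i 1 (by have := i.2; omega)
    simpa [S_one] using this

end Pool.Agent.D0H13.Tad
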