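import Mathlib

/-! A diagonal matrix with distinct entries and a vector without zero entries: in a suitable
orthonormal basis the matrix is an irreducible Jacobi matrix and the vector a multiple of the first
basis vector (Lanczos). -/

set_option autoImplicit false
open Finset Matrix InnerProductSpace

namespace Pool.Agent.D0H13.Tad

section
variable {n : ℕ}

/-- the Krylov vectors -/
noncomputable def kry (ν s : Fin n → ℝ) (k : Fin n) : EuclideanSpace ℝ (Fin n) :=
  WithLp.toLp 2 (fun j => s j * ν j ^ (k : ℕ))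

theorem kry_li (ν s : Fin n → ℝ) (hν : Function.Injective ν) (hs : ∀ j, s j ≠ 0) :
    LinearIndependent ℝ (kry ν s) := by
  rw [Fintype.linearIndependent_iff]
  intro g hg
  have h1 : ∀ j, ∑ k, g k * ν j ^ (k : ℕ) = 0 := by
    intro j
    have h2 := congrArg (fun w : EuclideanSpace ℝ (Fin n) => w j) hg
    simp only [kry, WithLp.ofLp_sum, WithLp.ofLp_smul, Finset.sum_apply, Pi.smul_apply,
      smul_eq_mul, WithLp.ofLp_zero, Pi.zero_apply] at h2
    have h3 : s j * ∑ k, g k * ν j ^ (k : ℕ) = 0 := by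
      rw [Finset.mul_sum, ← h2]
      exact Finset.sum_congr rfl fun k _ => by ring
    exact (mul_eq_zero.1 h3).resolve_left (hs j)
  have h4 : g = 0 := Matrix.eq_zero_of_forall_index_sum_mul_pow_eq_zero hν h1
  intro i
  rw [h4]; rfl

/-- multiplication by the diagonal matrix -/
noncomputable def dmul (ν : Fin n → ℝ) : EuclideanSpace ℝ (Fin n) →ₗ[ℝ] EuclideanSpace ℝ (Fin n) where
  toFun w := WithLp.toLp 2 (fun j => ν j * w j)
  map_add' u v := by
    ext j
    simp [mul_add]
  map_smul' c u := by
    ext j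
    simp only [WithLp.ofLp_smul, Pi.smul_apply, smul_eq_mul, RingHom.id_apply]
    ring

theorem dmul_kry (ν s : Fin n → ℝ) (k k' : Fin n) (h : (k : ℕ) + 1 = k') :
    dmul ν (kry ν s k) = kry ν s k' := by
  ext j
  simp only [dmul, kry, LinearMap.coe_mk, AddHom.coe_mk, ← h, pow_succ]
  ring

theorem lanczos (hn : 0 < n) (ν s : Fin n → ℝ) (hν : Function.Injective ν) (hs : ∀ j, s j ≠ 0) :
    ∃ Q : Matrix (Fin n) (Fin n) ℝ, Q * Qᵀ = 1 ∧ Qᵀ * Q = 1 ∧
      (∃ t : ℝ, t ≠ 0 ∧ ∀ k, ∑ j, s j * Q j k = if k.val = 0 then t else 0) ∧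
      ∀ i k : Fin n, i ≠ k → ((Qᵀ * diagonal ν * Q) i k ≠ 0 ↔ (i.val + 1 = k.val ∨ k.val + 1 = i.val)) := by
  classical
  set v := kry ν s with hv
  have hli : LinearIndependent ℝ v := kry_li ν s hν hs
  set q := gramSchmidtNormed ℝ v with hq
  have hon : Orthonormal ℝ q := gramSchmidtNormed_orthonormal hli
  have hspan : ∀ k : Fin n, Submodule.span ℝ (q '' Set.Iic k) = Submodule.span ℝ (v '' Set.Iic k) := by
    intro k
    rw [hq, span_gramSchmidtNormed, span_gramSchmidt_Iic]
  set Q : Matrix (Fin n) (Fin n) ℝ := fun j k => q k j with hQ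
  have hin : ∀ a b : EuclideanSpace ℝ (Fin n), ⟪a, b⟫_ℝ = ∑ j, a j * b j := by
    intro a b
    simp only [PiLp.inner_apply, RCLike.inner_apply, conj_trivial]
    exact Finset.sum_congr rfl fun j _ => mul_comm _ _
  have hQQ : Qᵀ * Q = 1 := by
    ext i k
    rw [Matrix.mul_apply]
    simp only [Matrix.transpose_apply, hQ]
    rw [← hin, orthonormal_iff_ite.1 hon i k, Matrix.one_apply]
  have hQQ' : Q * Qᵀ = 1 := mul_eq_one_comm.1 hQQ
  -- orthogonality to the earlier spans
  have horth : ∀ (i k : Fin n) (w : EuclideanSpace ℝ (Fin n)), k < i →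
      w ∈ Submodule.span ℝ (v '' Set.Iic k) → ⟪q i, w⟫_ℝ = 0 := by
    intro i k w hki hw
    rw [← hspan] at hw
    induction hw using Submodule.span_induction with
    | mem x hx =>
      obtain ⟨l, hl, rfl⟩ := hx
      exact hon.2 (ne_of_gt (lt_of_le_of_lt hl hki))
    | zero => exact inner_zero_right _
    | add x y _ _ h1 h2 => rw [inner_add_right, h1, h2, add_zero]
    | smul a x _ h1 => rw [inner_smul_right, h1, mul_zero]
  have hmono : ∀ k l : Fin n, k ≤ l → Submodule.span ℝ (v '' Set.Iic k) ≤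
      Submodule.span ℝ (v '' Set.Iic l) := fun k l h =>
    Submodule.span_mono (Set.image_mono (Set.Iic_subset_Iic.2 h))
  have hqmem : ∀ k, q k ∈ Submodule.span ℝ (v '' Set.Iic k) := by
    intro k
    rw [← hspan]
    exact Submodule.subset_span ⟨k, Set.mem_Iic.2 le_rfl, rfl⟩
  have hvmem : ∀ k l : Fin n, k ≤ l → v k ∈ Submodule.span ℝ (v '' Set.Iic l) := fun k l h =>
    Submodule.subset_span ⟨k, h, rfl⟩
  -- the shift
  have hshift : ∀ (k k' : Fin n), (k : ℕ) + 1 = k' → ∀ w ∈ Submodule.span ℝ (v '' Set.Iic k),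
      dmul ν w ∈ Submodule.span ℝ (v '' Set.Iic k') := by
    intro k k' hkk w hw
    induction hw using Submodule.span_induction with
    | mem x hx =>
      obtain ⟨l, hl, rfl⟩ := hx
      have hl' : (l : ℕ) ≤ k := hl
      have hl2 : (l : ℕ) + 1 < n := by omega
      rw [hv, dmul_kry ν s l ⟨l + 1, hl2⟩ rfl]
      refine hvmem _ _ ?_
      rw [Fin.le_def]
      simp only
      omega
    | zero => rw [map_zero]; exact Submodule.zero_mem _
    | add x y _ _ h1 h2 => rw [map_add]; exact Submodule.add_mem _ h1 h2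
    | smul a x _ h1 => rw [map_smul]; exact Submodule.smul_mem _ _ h1
  have hent : ∀ i k, (Qᵀ * diagonal ν * Q) i k = ⟪q i, dmul ν (q k)⟫_ℝ := by
    intro i k
    rw [hin, Matrix.mul_apply]
    refine Finset.sum_congr rfl fun j _ => ?_
    rw [Matrix.mul_diagonal]
    simp only [Matrix.transpose_apply, hQ, dmul, LinearMap.coe_mk, AddHom.coe_mk]
    ring
  have hsym : ∀ i k, (Qᵀ * diagonal ν * Q) i k = (Qᵀ * diagonal ν * Q) k i := by
    intro i k
    have : (Qᵀ * diagonal ν * Q)ᵀ = Qᵀ * diagonal ν * Q := by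
      rw [Matrix.transpose_mul, Matrix.transpose_mul, Matrix.diagonal_transpose,
        Matrix.transpose_transpose, Matrix.mul_assoc]
    conv_lhs => rw [← this]
    rfl
  -- entries below the diagonal
  have hlow : ∀ i k : Fin n, k < i → ((Qᵀ * diagonal ν * Q) i k ≠ 0 ↔ k.val + 1 = i.val) := by
    intro i k hki
    have hki' : (k : ℕ) < i := hki
    have hk1 : (k : ℕ) + 1 < n := by omega
    set k' : Fin n := ⟨k + 1, hk1⟩ with hk'
    have hm := hshift k k' rfl _ (hqmem k)
    rcases eq_or_ne ((k : ℕ) + 1) i with h | h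
    · refine ⟨fun _ => h, fun _ hz => ?_⟩
      have hik : k' = i := Fin.ext h
      rw [hent] at hz
      -- `q i` is orthogonal to `D K_k`, hence to `K_{k+1}`
      have h1 : ∀ w ∈ Submodule.span ℝ (q '' Set.Iic k), ⟪q i, dmul ν w⟫_ℝ = 0 := by
        intro w hw
        induction hw using Submodule.span_induction with
        | mem x hx =>
          obtain ⟨l, hl, rfl⟩ := hx
          rcases eq_or_lt_of_le (show l ≤ k from hl) with h2 | h2
          · rw [h2]; exact hz
          · have h3 : (l : ℕ) < k := h2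
            have h4 := hshift l ⟨l + 1, by omega⟩ rfl _ (hqmem l)
            refine horth i k _ hki (hmono _ _ ?_ h4)
            rw [Fin.le_def]
            simp only
            omega
        | zero => rw [map_zero, inner_zero_right]
        | add x y _ _ h1 h2 => rw [map_add, inner_add_right, h1, h2, add_zero]
        | smul a x _ h1 => rw [map_smul, inner_smul_right, h1, mul_zero]
      have h5 : ⟪q i, v i⟫_ℝ = 0 := by
        have h6 : dmul ν (v k) = v i := dmul_kry ν s k i h
        rw [← h6]
        refine h1 _ ?_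
        rw [hspan]
        exact hvmem k k le_rfl
      have h7 : ∀ w ∈ Submodule.span ℝ (v '' Set.Iic i), ⟪q i, w⟫_ℝ = 0 := by
        intro w hw
        induction hw using Submodule.span_induction with
        | mem x hx =>
          obtain ⟨l, hl, rfl⟩ := hx
          rcases eq_or_lt_of_le (show l ≤ i from hl) with h2 | h2
          · rw [h2]; exact h5
          · exact horth i l _ h2 (hvmem l l le_rfl)
        | zero => rw [inner_zero_right]
        | add x y _ _ h1 h2 => rw [inner_add_right, h1, h2, add_zero]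
        | smul a x _ h1 => rw [inner_smul_right, h1, mul_zero]
      have h8 := h7 (q i) (hqmem i)
      rw [real_inner_self_eq_norm_sq, hon.1 i] at h8
      norm_num at h8
    · refine ⟨fun hz => ?_, fun h' => absurd h' h⟩
      exfalso
      apply hz
      rw [hent]
      refine horth i k' _ ?_ hm
      rw [Fin.lt_def]
      simp only [hk']
      omega
  -- the first vector
  have h0 : ∀ k : Fin n, ∑ j, s j * Q j k = ⟪q k, v ⟨0, hn⟩⟫_ℝ := by
    intro k
    rw [hin]
    refine Finset.sum_congr rfl fun j _ => ?_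
    simp only [hQ, hv, kry, pow_zero, mul_one]
    ring
  refine ⟨Q, hQQ', hQQ, ⟨⟪q ⟨0, hn⟩, v ⟨0, hn⟩⟫_ℝ, ?_, ?_⟩, ?_⟩
  · intro hz
    have h7 : ∀ w ∈ Submodule.span ℝ (v '' Set.Iic (⟨0, hn⟩ : Fin n)), ⟪q ⟨0, hn⟩, w⟫_ℝ = 0 := by
      intro w hw
      induction hw using Submodule.span_induction with
      | mem x hx =>
        obtain ⟨l, hl, rfl⟩ := hx
        have hl' : l ≤ (⟨0, hn⟩ : Fin n) := hl
        have : l = ⟨0, hn⟩ := by
          rw [Fin.le_def] at hl'
          exact Fin.ext (by simpa using hl')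
        rw [this]; exact hz
      | zero => rw [inner_zero_right]
      | add x y _ _ h1 h2 => rw [inner_add_right, h1, h2, add_zero]
      | smul a x _ h1 => rw [inner_smul_right, h1, mul_zero]
    have h8 := h7 (q ⟨0, hn⟩) (hqmem _)
    rw [real_inner_self_eq_norm_sq, hon.1] at h8
    norm_num at h8
  · intro k
    rw [h0]
    split_ifs with h
    · have : k = ⟨0, hn⟩ := Fin.ext h
      rw [this]
    · refine horth k ⟨0, hn⟩ _ ?_ (hvmem _ _ le_rfl)
      rw [Fin.lt_def]
      simp only
      omega
  · intro i k hik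
    rcases lt_or_gt_of_ne hik with h | h
    · rw [hsym, hlow k i h]
      have : (i : ℕ) < k := h
      omega
    · rw [hlow i k h]
      have : (k : ℕ) < i := h
      omega

end

end Pool.Agent.D0H13.Tad
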