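import Pool.Agent.D0H13.Tad.Comb
import Pool.Agent.D0H13.Tad.Lanczos

/-! The matrices without the strong spectral property. -/

set_option autoImplicit false
open Finset Matrix

namespace Pool.Agent.D0H13.Tad

theorem exists_bad (n M : ℕ) (hn : 1 ≤ n) (hM : 2 * n + 3 ≤ M) :
    ∃ (A X : Matrix (Fin (M + 1) ⊕ Fin n) (Fin (M + 1) ⊕ Fin n) ℝ),
      A.IsSymm ∧ X.IsSymm ∧ A * X = X * A ∧ X ≠ 0 ∧ (∀ v, X v v = 0) ∧
      (∀ v w, A v w * X v w = 0) ∧
      (∀ i j : Fin (M + 1), i ≠ j → (A (.inl i) (.inl j) ≠ 0 ↔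
        (i.1 + 1 = j.1 ∨ j.1 + 1 = i.1 ∨ (i.1 = 0 ∧ j.1 + 1 = M + 1) ∨
          (j.1 = 0 ∧ i.1 + 1 = M + 1)))) ∧
      (∀ i j : Fin n, i ≠ j → (A (.inr i) (.inr j) ≠ 0 ↔ (i.1 + 1 = j.1 ∨ j.1 + 1 = i.1))) ∧
      (∀ (i : Fin (M + 1)) (j : Fin n), A (.inl i) (.inr j) ≠ 0 ↔ (i.1 = 0 ∧ j.1 = 0)) := by
  classical
  have hM4 : 4 ≤ M := by omega
  obtain ⟨x, hxN, hx2, hx⟩ := exists_nodes M (n + 2) (by omega) (1 / 2)
    (by rw [abs_of_pos] <;> norm_num) (by omega)
  obtain ⟨a0, β, s, ν, hβ, hs, hν, hxν, hw⟩ := exists_weights n x hx2 hx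
  obtain ⟨c, hc0, hc1, hc2⟩ := exists_comb n x ν
  obtain ⟨Q, hQ1, hQ2, ⟨τ, hτ, hQ3⟩, hQ4⟩ := lanczos (by omega) ν s hν hs
  -- the weight equation
  have hg : ∀ t : Fin (n + 2), x t - a0 - ∑ j, s j ^ 2 / (x t - ν j) =
      β ^ 2 * S (x t) (M - 1) := by
    intro t
    rw [hw t t.2]
    congr 1
    have h1 := (hxN t t.2).2
    have h2 := hx2 t t.2
    have h3 : (5 / 2 - x t) ≠ 0 := by intro h; linarith
    have h4 : 3 / (5 / 2 - x t) = S (x t) (M - 1) + 2 := by
      rw [div_eq_iff h3]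
      linear_combination (-2 : ℝ) * h1
    rw [h4]; ring
  have hne : ∀ (t : Fin (n + 2)) j, x t - ν j ≠ 0 := fun t j => sub_ne_zero.2 (hxν t t.2 j)
  set Ac : Matrix (Fin (M + 1)) (Fin (M + 1)) ℝ := fun i j => ac M (1 / 2) a0 β i j with hAc
  set B : Matrix (Fin (M + 1)) (Fin n) ℝ := fun i j => if i.val = 0 then s j else 0 with hB
  set Kc : Matrix (Fin (M + 1)) (Fin (M + 1)) ℝ :=
    fun i j => ∑ t, c t * kx (1 / 2) β (x t) i j with hKc
  set Lc : Matrix (Fin (M + 1)) (Fin n) ℝ :=
    fun i j => ∑ t, c t * (s j * kx (1 / 2) β (x t) i 0 / (x t - ν j)) with hLc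
  have hAcs : Acᵀ = Ac := by
    ext i j
    exact ac_symm hM4 j i (by have := j.2; omega) (by have := i.2; omega)
  have hKcs : Kcᵀ = Kc := by
    ext i j
    simp only [Matrix.transpose_apply, hKc]
    exact Finset.sum_congr rfl fun t _ => by rw [kx_symm]
  -- sums with `B`
  have hBsum : ∀ (i : Fin (M + 1)) (f : Fin n → ℝ), ∑ p, B i p * f p =
      if i.val = 0 then ∑ p, s p * f p else 0 := by
    intro i f
    simp only [hB]
    split_ifs with h <;> simp
  have hLc0 : ∀ j, Lc 0 j = 0 := by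
    intro j
    simp only [hLc, Fin.val_zero]
    refine Finset.sum_eq_zero fun t _ => ?_
    rw [kx_zero_zero]; simp
  -- the first identity
  have h1 : Ac * Kc + B * Lcᵀ =
      (fun i j => ∑ t, c t * (x t * kx (1 / 2) β (x t) i.val j.val) :
        Matrix (Fin (M + 1)) (Fin (M + 1)) ℝ) := by
    ext i j
    rw [Matrix.add_apply, Matrix.mul_apply, Matrix.mul_apply, hBsum]
    have e1 : ∑ l, Ac i l * Kc l j = ∑ t, c t * ∑ l ∈ range (M + 1),
        ac M (1 / 2) a0 β i l * kx (1 / 2) β (x t) l j := by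
      simp only [hAc, hKc, Finset.mul_sum]
      rw [Finset.sum_comm]
      refine Finset.sum_congr rfl fun t _ => ?_
      rw [Finset.sum_range]
      exact Finset.sum_congr rfl fun l _ => by ring
    have e2 : (if i.val = 0 then ∑ p, s p * Lcᵀ p j else 0) =
        ∑ t, c t * (if i.val = 0 then (∑ p, s p ^ 2 / (x t - ν p)) * kx (1 / 2) β (x t) 0 j
          else 0) := by
      split_ifs with h
      · simp only [Matrix.transpose_apply, hLc, Finset.mul_sum, Finset.sum_mul]
        rw [Finset.sum_comm]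
        refine Finset.sum_congr rfl fun t _ => Finset.sum_congr rfl fun p _ => ?_
        rw [kx_symm j.val 0]
        ring
      · simp
    rw [e1, e2, ← Finset.sum_add_distrib]
    have e3 : ∀ t : Fin (n + 2), c t * ∑ l ∈ range (M + 1),
        ac M (1 / 2) a0 β i l * kx (1 / 2) β (x t) l j +
        c t * (if i.val = 0 then (∑ p, s p ^ 2 / (x t - ν p)) * kx (1 / 2) β (x t) 0 j else 0) =
        c t * (x t * kx (1 / 2) β (x t) i j) - c t * (if i.val = j.val then 1 else 0) := by
      intro t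
      rw [← mul_add, row_eq hM4 hβ (hxN t t.2) _ (hg t) i j (by have := i.2; omega)
        (by have := j.2; omega)]
      ring
    rw [Finset.sum_congr rfl fun t _ => e3 t, Finset.sum_sub_distrib, ← Finset.sum_mul, hc1]
    ring
  have h1' : Ac * Kc + B * Lcᵀ = Kc * Ac + Lc * Bᵀ := by
    have e : (Ac * Kc + B * Lcᵀ)ᵀ = Ac * Kc + B * Lcᵀ := by
      rw [h1]
      ext i j
      simp only [Matrix.transpose_apply]
      exact Finset.sum_congr rfl fun t _ => by rw [kx_symm]
    rw [← e, Matrix.transpose_add, Matrix.transpose_mul, Matrix.transpose_mul,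
      Matrix.transpose_transpose, hAcs, hKcs]
  -- the second identity
  have h2 : Ac * Lc = Kc * B + Lc * diagonal ν := by
    ext i j
    rw [Matrix.add_apply, Matrix.mul_apply, Matrix.mul_apply, Matrix.mul_diagonal]
    have e1 : ∑ l, Ac i l * Lc l j = ∑ t, c t * (s j / (x t - ν j) * ∑ l ∈ range (M + 1),
        ac M (1 / 2) a0 β i l * kx (1 / 2) β (x t) l 0) := by
      simp only [hAc, hLc, Finset.mul_sum]
      rw [Finset.sum_comm]
      refine Finset.sum_congr rfl fun t _ => ?_
      rw [Finset.sum_range]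
      exact Finset.sum_congr rfl fun l _ => by ring
    have e2 : ∑ l, Kc i l * B l j = Kc i 0 * s j := by
      rw [Finset.sum_eq_single 0]
      · simp [hB]
      · intro l _ hl
        simp [hB, hl]
      · simp
    rw [e1, e2]
    have e3 : ∀ t : Fin (n + 2), c t * (s j / (x t - ν j) * ∑ l ∈ range (M + 1),
        ac M (1 / 2) a0 β i l * kx (1 / 2) β (x t) l 0) =
        c t * kx (1 / 2) β (x t) i 0 * s j + c t * (s j * kx (1 / 2) β (x t) i 0 / (x t - ν j)) * ν j
          - c t / (x t - ν j) * (s j * if i.val = 0 then 1 else 0) := by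
      intro t
      have := row_eq hM4 hβ (hxN t t.2) _ (hg t) i 0 (by have := i.2; omega) (by omega)
      rw [kx_zero_zero, mul_zero, ite_self, add_zero] at this
      rw [this]
      have h3 := hne t j
      field_simp
      ring
    rw [Finset.sum_congr rfl fun t _ => e3 t, Finset.sum_sub_distrib, Finset.sum_add_distrib,
      ← Finset.sum_mul, ← Finset.sum_mul, ← Finset.sum_mul, hc2 j]
    simp only [hKc, hLc, Fin.val_zero]
    ring
  -- the third identity
  have h3 : Bᵀ * Lc = 0 := by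
    ext i j
    rw [Matrix.mul_apply, Finset.sum_eq_single 0]
    · rw [hLc0]; simp
    · intro l _ hl
      simp [hB, hl]
    · simp
  have h3' : Lcᵀ * B = 0 := by
    have := congrArg Matrix.transpose h3
    rwa [Matrix.transpose_mul, Matrix.transpose_transpose, Matrix.transpose_zero] at this
  -- edges
  have hPM : ∀ t : Fin (n + 2), P (1 / 2) (x t) (M - 1) = 1 := by
    intro t
    have := P_refl (by omega) (hxN t t.2) 0 (by omega)
    rw [P_zero] at this
    exact this.symm
  have hKe : ∀ i j : Fin (M + 1), i ≠ j → Ac i j ≠ 0 → Kc i j = 0 := by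
    have hconst : ∀ (i j : Fin (M + 1)) (r : ℝ),
        (∀ t : Fin (n + 2), kx (1 / 2) β (x t) i j = r) → Kc i j = 0 := by
      intro i j r h
      simp only [hKc]
      rw [Finset.sum_congr rfl fun t _ => by rw [h t], ← Finset.sum_mul, hc1, zero_mul]
    have hlt : ∀ i j : Fin (M + 1), i.val < j.val → Ac i j ≠ 0 → Kc i j = 0 := by
      intro i j hij h
      have hj := j.2
      have := (ac_ne_zero hM4 hβ i j (by omega) (by omega) (by omega)).1 h
      rcases Nat.eq_zero_or_pos i.val with h0 | h0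
      · rcases eq_or_ne j.val 1 with h5 | h5
        · refine hconst i j (-1 / (2 * β)) fun t => ?_
          rw [h0, h5, kx_z 0 rfl, P_zero]
        · have h6 : j.val = M := by omega
          refine hconst i j (-1 / (2 * β)) fun t => ?_
          rw [h0, h6, kx_z (M - 1) (by omega), hPM]
      · refine hconst i j (-(1 / 2)) fun t => ?_
        rw [kx_d 1 (by omega) (by omega) (by omega), S_one, mul_one]
    intro i j hij h
    rcases lt_trichotomy i.val j.val with h4 | h4 | h4
    · exact hlt i j h4 h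
    · exact absurd (Fin.ext h4) hij
    · rw [← hKcs, Matrix.transpose_apply]
      refine hlt j i h4 ?_
      rwa [← hAcs, Matrix.transpose_apply]
  have hKd : ∀ i, Kc i i = 0 := by
    intro i
    simp only [hKc]
    refine Finset.sum_eq_zero fun t _ => ?_
    rcases Nat.eq_zero_or_pos i.val with h | h
    · rw [h, kx_zero_zero, mul_zero]
    · rw [kx_d 0 h h (by omega), S_zero]; simp
  have hBQ : ∀ i k, (B * Q) i k = if i.val = 0 ∧ k.val = 0 then τ else 0 := by
    intro i k
    rw [Matrix.mul_apply, hBsum]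
    split_ifs with h4 h5 h5
    · rw [hQ3, if_pos h5.2]
    · rw [hQ3, if_neg fun h => h5 ⟨h4, h⟩]
    · exact absurd h5.1 h4
    · rfl
  have hLQ0 : ∀ k, (Lc * Q) 0 k = 0 := by
    intro k
    rw [Matrix.mul_apply]
    exact Finset.sum_eq_zero fun j _ => by rw [hLc0, zero_mul]
  have hNs : (Qᵀ * diagonal ν * Q)ᵀ = Qᵀ * diagonal ν * Q := by
    rw [Matrix.transpose_mul, Matrix.transpose_mul, Matrix.diagonal_transpose,
      Matrix.transpose_transpose, Matrix.mul_assoc]
  refine ⟨fromBlocks Ac (B * Q) ((B * Q)ᵀ) (Qᵀ * diagonal ν * Q),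
    fromBlocks Kc (Lc * Q) ((Lc * Q)ᵀ) 0, ?_, ?_, ?_, ?_, ?_, ?_, ?_, ?_, ?_⟩
  · exact Matrix.IsSymm.fromBlocks hAcs rfl hNs
  · exact Matrix.IsSymm.fromBlocks hKcs rfl (Matrix.transpose_zero)
  · rw [Matrix.fromBlocks_multiply, Matrix.fromBlocks_multiply]
    have e12 : Ac * (Lc * Q) + B * Q * (0 : Matrix (Fin n) (Fin n) ℝ) = Kc * (B * Q) + Lc * Q * (Qᵀ * diagonal ν * Q) := by
      have e : Lc * Q * (Qᵀ * diagonal ν * Q) = Lc * diagonal ν * Q := by
        calc Lc * Q * (Qᵀ * diagonal ν * Q) = Lc * (Q * Qᵀ) * diagonal ν * Q := by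
              simp only [Matrix.mul_assoc]
          _ = _ := by rw [hQ1, Matrix.mul_one]
      rw [e, Matrix.mul_zero, add_zero, ← Matrix.mul_assoc, h2, Matrix.add_mul, Matrix.mul_assoc Kc]
    have e21 : (B * Q)ᵀ * Kc + (Qᵀ * diagonal ν * Q) * (Lc * Q)ᵀ =
        (Lc * Q)ᵀ * Ac + (0 : Matrix (Fin n) (Fin n) ℝ) * (B * Q)ᵀ := by
      have := congrArg Matrix.transpose e12
      rw [Matrix.mul_zero, add_zero, Matrix.transpose_add, Matrix.transpose_mul Ac,
        Matrix.transpose_mul Kc, Matrix.transpose_mul (Lc * Q) (Qᵀ * diagonal ν * Q), hNs, hAcs,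
        hKcs] at this
      rw [Matrix.zero_mul, add_zero]
      exact this.symm
    rw [Matrix.fromBlocks_inj]
    refine ⟨?_, e12, e21, ?_⟩
    · have e1 : B * Q * (Lc * Q)ᵀ = B * Lcᵀ := by
        rw [Matrix.transpose_mul, Matrix.mul_assoc, ← Matrix.mul_assoc Q, hQ1, Matrix.one_mul]
      have e2 : Lc * Q * (B * Q)ᵀ = Lc * Bᵀ := by
        rw [Matrix.transpose_mul, Matrix.mul_assoc, ← Matrix.mul_assoc Q, hQ1, Matrix.one_mul]
      rw [e1, e2, h1']
    · have e1 : (B * Q)ᵀ * (Lc * Q) = Qᵀ * (Bᵀ * Lc) * Q := by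
        rw [Matrix.transpose_mul]; simp only [Matrix.mul_assoc]
      have e2 : (Lc * Q)ᵀ * (B * Q) = Qᵀ * (Lcᵀ * B) * Q := by
        rw [Matrix.transpose_mul]; simp only [Matrix.mul_assoc]
      rw [e1, e2, h3, h3']
      simp
  · intro h0
    apply hc0
    refine comb_zero n M (by omega) x hx c fun k hk => ?_
    have e := congrFun (congrFun h0 (.inl ⟨1, by omega⟩)) (.inl ⟨1 + k, by omega⟩)
    rw [Matrix.fromBlocks_apply₁₁, Matrix.zero_apply] at e
    simp only [hKc] at e
    have e2 : ∀ t : Fin (n + 2), c t * kx (1 / 2) β (x t) 1 (1 + k) =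
        -(1 / 2) * (c t * S (x t) k) := by
      intro t
      rw [kx_d k le_rfl (by omega) (by omega)]; ring
    rw [Finset.sum_congr rfl fun t _ => e2 t, ← Finset.mul_sum] at e
    have := (mul_eq_zero.1 e).resolve_left (by norm_num)
    exact this
  · rintro (i | i)
    · exact hKd i
    · rfl
  · have hcp : ∀ i k, (B * Q) i k * (Lc * Q) i k = 0 := by
      intro i k
      rcases eq_or_ne i 0 with h | h
      · rw [h, hLQ0, mul_zero]
      · rw [hBQ, if_neg fun h' => h (Fin.ext h'.1), zero_mul]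
    rintro (i | i) (j | j)
    · rw [Matrix.fromBlocks_apply₁₁, Matrix.fromBlocks_apply₁₁]
      rcases eq_or_ne i j with h | h
      · rw [h, hKd, mul_zero]
      · rcases eq_or_ne (Ac i j) 0 with h4 | h4
        · rw [h4, zero_mul]
        · rw [hKe i j h h4, mul_zero]
    · exact hcp i j
    · exact hcp j i
    · exact mul_zero _
  · intro i j hij
    exact ac_ne_zero hM4 hβ i j (by have := i.2; omega) (by have := j.2; omega)
      fun h => hij (Fin.ext h)
  · intro i j hij
    exact hQ4 i j hij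
  · intro i j
    rw [Matrix.fromBlocks_apply₁₂, hBQ]
    constructor
    · intro h
      by_contra h'
      exact h (if_neg h')
    · intro h
      rw [if_pos h]
      exact hτ

end Pool.Agent.D0H13.Tad
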