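import Mathlib

/-! The nodes: the numbers `x = 2 cos θ` with `cos (m θ / 2) = a cos ((m - 2) θ / 2)`, `m = M + 1`. -/

set_option autoImplicit false
open Finset Real

namespace Pool.Agent.D0H13.Tad

/-- `S x k = sin (k θ) / sin θ` for `x = 2 cos θ` -/
def S (x : ℝ) : ℕ → ℝ
  | 0 => 0
  | 1 => 1
  | (k + 2) => x * S x (k + 1) - S x k

theorem S_zero (x : ℝ) : S x 0 = 0 := rfl
theorem S_one (x : ℝ) : S x 1 = 1 := rfl
theorem S_succ (x : ℝ) (k : ℕ) : S x (k + 2) = x * S x (k + 1) - S x k := rfl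

theorem S_sin (θ : ℝ) : ∀ k : ℕ, S (2 * cos θ) k * sin θ = sin (k * θ) := by
  intro k
  induction k using Nat.twoStepInduction with
  | zero => simp [S_zero]
  | one => simp [S_one]
  | more k h1 h2 =>
    rw [S_succ, sub_mul, mul_assoc, h2, h1]
    push_cast
    have e1 : ((k : ℝ) + 2) * θ = (k + 1) * θ + θ := by ring
    have e2 : (k : ℝ) * θ = (k + 1) * θ - θ := by ring
    rw [e1, e2, sin_add, sin_sub]
    ring

/-- `x` is a node -/
def Node (M : ℕ) (a x : ℝ) : Prop :=
  S x M = 1 + a * S x (M - 1) ∧ S x (M - 1) * (1 + a ^ 2 - a * x) = x - 2 * a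

theorem node_of_cos (M : ℕ) (hM : 1 ≤ M) (a θ : ℝ) (hs : sin θ ≠ 0)
    (h : cos ((M + 1) / 2 * θ) = a * cos ((M - 1) / 2 * θ)) : Node M a (2 * cos θ) := by
  obtain ⟨N, rfl⟩ : ∃ N, M = N + 1 := ⟨M - 1, by omega⟩
  push_cast at h
  set φ : ℝ := N / 2 * θ with hφ
  have e1 : ((N : ℝ) + 1 + 1) / 2 * θ = φ + θ := by rw [hφ]; ring
  have e2 : ((N : ℝ) + 1 - 1) / 2 * θ = φ := by rw [hφ]; ring
  rw [e1, e2] at h
  have h1 := S_sin θ (N + 1)
  have h2 := S_sin θ N
  have e3 : ((N + 1 : ℕ) : ℝ) * θ = φ + (φ + θ) := by push_cast; rw [hφ]; ring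
  have e4 : (N : ℝ) * θ = φ + φ := by rw [hφ]; ring
  rw [e3, sin_add] at h1
  rw [e4, sin_add] at h2
  have h3 : sin (φ + θ) * cos φ - cos (φ + θ) * sin φ = sin θ := by
    rw [← sin_sub]; congr 1; ring
  have h4 : cos φ * cos θ - sin φ * sin θ = a * cos φ := by rw [← cos_add]; exact h
  have h5 := sin_sq_add_cos_sq θ
  have h6 := sin_sq_add_cos_sq φ
  unfold Node
  rw [Nat.add_sub_cancel]
  constructor
  · have : (S (2 * cos θ) (N + 1) - (1 + a * S (2 * cos θ) N)) * sin θ = 0 := by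
      linear_combination h1 - a * h2 + 2 * sin φ * h + h3
    have := (mul_eq_zero.1 this).resolve_right hs
    linarith
  · have h7 : cos φ * (cos θ - a) = sin φ * sin θ := by linear_combination h4
    have : (S (2 * cos θ) N * (1 + a ^ 2 - a * (2 * cos θ)) - (2 * cos θ - 2 * a)) * sin θ = 0 := by
      have h8 : (1 + a ^ 2 - a * (2 * cos θ)) = (cos θ - a) ^ 2 + sin θ ^ 2 := by
        linear_combination -h5
      have h9 : (S (2 * cos θ) N * (1 + a ^ 2 - a * (2 * cos θ))) * sin θ =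
          (S (2 * cos θ) N * sin θ) * ((cos θ - a) ^ 2 + sin θ ^ 2) := by
        rw [h8]; ring
      rw [sub_mul, h9, h2]
      linear_combination (2 * sin φ * (cos θ - a) - 2 * cos φ * sin θ) * h7 +
        2 * (cos θ - a) * sin θ * h6
    have := (mul_eq_zero.1 this).resolve_right hs
    linarith

/-- Between `2πk/m` and `2π(k+1)/m` there is a node. -/
theorem exists_theta (M : ℕ) (a : ℝ) (ha : |a| < 1) (k : ℕ) :
    ∃ θ : ℝ, 2 * π * k / (M + 1) < θ ∧ θ < 2 * π * (k + 1) / (M + 1) ∧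
      cos ((M + 1) / 2 * θ) = a * cos ((M - 1) / 2 * θ) := by
  have hMp : (0 : ℝ) < (M : ℝ) + 1 := by positivity
  set g : ℝ → ℝ := fun θ => cos ((M + 1) / 2 * θ) - a * cos ((M - 1) / 2 * θ) with hg
  have hgc : Continuous g := by
    rw [hg]; fun_prop
  have hval : ∀ j : ℕ, g (2 * π * j / (M + 1)) = (-1) ^ j * (1 - a * cos (2 * π * j / (M + 1))) := by
    intro j
    have e1 : ((M : ℝ) + 1) / 2 * (2 * π * j / (M + 1)) = j * π := by
      field_simp
    have e2 : ((M : ℝ) - 1) / 2 * (2 * π * j / (M + 1)) = j * π - 2 * π * j / (M + 1) := by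
      field_simp
      ring
    simp only [hg]
    rw [e1, e2, cos_sub, Real.cos_nat_mul_pi, Real.sin_nat_mul_pi]
    ring
  have hpos : ∀ t : ℝ, 0 < 1 - a * cos t := by
    intro t
    have h1 : |a * cos t| < 1 := by
      rw [abs_mul]
      calc |a| * |cos t| ≤ |a| * 1 := mul_le_mul_of_nonneg_left (abs_cos_le_one t) (abs_nonneg a)
        _ < 1 := by linarith
    have := (abs_lt.1 h1).2
    linarith
  have hlt : 2 * π * k / (M + 1) < 2 * π * (k + 1 : ℕ) / (M + 1) := by
    have := Real.pi_pos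
    gcongr
    linarith
  have hA := hval k
  have hB := hval (k + 1)
  have hpA := hpos (2 * π * k / (M + 1))
  have hpB := hpos (2 * π * (k + 1 : ℕ) / (M + 1))
  have key : ∃ θ ∈ Set.Ioo (2 * π * k / (M + 1)) (2 * π * (k + 1 : ℕ) / (M + 1)), g θ = 0 := by
    rcases Nat.even_or_odd k with he | ho
    · have h1 : 0 < g (2 * π * k / (M + 1)) := by rw [hA, he.neg_one_pow]; linarith
      have h2 : g (2 * π * (k + 1 : ℕ) / (M + 1)) < 0 := by
        rw [hB, (he.add_one).neg_one_pow]; linarith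
      exact intermediate_value_Ioo' hlt.le hgc.continuousOn ⟨h2, h1⟩
    · have h1 : g (2 * π * k / (M + 1)) < 0 := by rw [hA, ho.neg_one_pow]; linarith
      have h2 : 0 < g (2 * π * (k + 1 : ℕ) / (M + 1)) := by
        rw [hB, (ho.add_one).neg_one_pow]; linarith
      exact intermediate_value_Ioo hlt.le hgc.continuousOn ⟨h1, h2⟩
  obtain ⟨θ, ⟨h1, h2⟩, h3⟩ := key
  refine ⟨θ, h1, ?_, ?_⟩
  · push_cast at h2; exact h2
  · simp only [hg] at h3; linarith

/-- There are at least `⌊(M+1)/2⌋` nodes in decreasing order. -/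
theorem exists_nodes (M N : ℕ) (hM : 1 ≤ M) (a : ℝ) (ha : |a| < 1) (hN : 2 * N ≤ M + 1) :
    ∃ x : ℕ → ℝ, (∀ k < N, Node M a (x k)) ∧ (∀ k < N, x k < 2) ∧
      ∀ j k, j < k → k < N → x k < x j := by
  have hMp : (0 : ℝ) < (M : ℝ) + 1 := by positivity
  have hex : ∀ k : ℕ, ∃ θ : ℝ, k < N → (2 * π * k / (M + 1) < θ ∧ θ < 2 * π * (k + 1) / (M + 1) ∧
      cos ((M + 1) / 2 * θ) = a * cos ((M - 1) / 2 * θ)) := by
    intro k
    by_cases hk : k < N
    · obtain ⟨θ, h⟩ := exists_theta M a ha k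
      exact ⟨θ, fun _ => h⟩
    · exact ⟨0, fun h => absurd h hk⟩
  choose θ hθ using hex
  have hpi := Real.pi_pos
  have hrange : ∀ k < N, 0 < θ k ∧ θ k < π := by
    intro k hk
    obtain ⟨h1, h2, -⟩ := hθ k hk
    constructor
    · have : (0 : ℝ) ≤ 2 * π * k / (M + 1) := by positivity
      linarith
    · have h3 : 2 * π * ((k : ℝ) + 1) / (M + 1) ≤ π := by
        rw [div_le_iff₀ hMp]
        have h4 : (2 * (k + 1) : ℝ) ≤ M + 1 := by
          have : 2 * (k + 1) ≤ M + 1 := by omega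
          exact_mod_cast this
        nlinarith
      linarith
  refine ⟨fun k => 2 * cos (θ k), fun k hk => ?_, fun k hk => ?_, fun j k hjk hk => ?_⟩
  · exact node_of_cos M hM a (θ k) (sin_pos_of_pos_of_lt_pi (hrange k hk).1 (hrange k hk).2).ne'
      (hθ k hk).2.2
  · have h1 : cos (θ k) < cos 0 := Real.cos_lt_cos_of_nonneg_of_le_pi le_rfl (hrange k hk).2.le
      (hrange k hk).1
    rw [cos_zero] at h1
    simp only
    linarith
  · have hj : j < N := by omega
    have h1 : θ j < θ k := by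
      have h2 := (hθ j hj).2.1
      have h3 := (hθ k hk).1
      have h4 : 2 * π * ((j : ℝ) + 1) / (M + 1) ≤ 2 * π * k / (M + 1) := by
        have : ((j : ℝ) + 1) ≤ k := by exact_mod_cast hjk
        gcongr
      linarith
    have := Real.cos_lt_cos_of_nonneg_of_le_pi (hrange j hj).1.le (hrange k hk).2.le h1
    simp only
    linarith

section
variable {M : ℕ} {a x : ℝ}

/-- `P k = S (k+1) - a S k` -/
def P (a x : ℝ) (k : ℕ) : ℝ := S x (k + 1) - a * S x k

theorem P_zero : P a x 0 = 1 := by simp [P, S_zero, S_one]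
theorem P_succ (k : ℕ) : P a x (k + 2) = x * P a x (k + 1) - P a x k := by
  simp only [P, S_succ]; ring

/-- reflection of `P` at a node -/
theorem P_refl (hM : 2 ≤ M) (h : Node M a x) : ∀ k, k + 1 ≤ M → P a x k = P a x (M - 1 - k) := by
  obtain ⟨N, rfl⟩ : ∃ N, M = N + 2 := ⟨M - 2, by omega⟩
  obtain ⟨h1, h2⟩ := h
  rw [show N + 2 - 1 = N + 1 by omega] at h1 h2
  intro k
  induction k using Nat.twoStepInduction with
  | zero =>
    intro _
    rw [P_zero]
    simp only [P, show N + 2 - 1 - 0 = N + 1 by omega]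
    linarith
  | one =>
    intro _
    simp only [P, show N + 2 - 1 - 1 = N by omega, S_one]
    have h3 : S x (1 + 1) = x := by
      show S x (0 + 2) = x
      rw [S_succ, S_one, S_zero]; ring
    have h4 := S_succ x N
    rw [h3]
    linear_combination (-1 : ℝ) * h2 - a * h1 + a * h4
  | more k ih1 ih2 =>
    intro hk
    have e1 := ih1 (by omega)
    have e2 := ih2 (by omega)
    have e3 : N + 2 - 1 - k = (N + 2 - 1 - (k + 2)) + 2 := by omega
    have e4 : N + 2 - 1 - (k + 1) = (N + 2 - 1 - (k + 2)) + 1 := by omega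
    rw [P_succ, e1, e2, e3, P_succ, e4]
    ring

/-- the row of the vertex `0` -/
theorem P_kappa (hM : 2 ≤ M) (h : Node M a x) : ∀ k, k + 1 ≤ M →
    S x (M - 1) * P a x k = S x k + S x (M - 1 - k) := by
  obtain ⟨N, rfl⟩ : ∃ N, M = N + 2 := ⟨M - 2, by omega⟩
  obtain ⟨h1, h2⟩ := h
  rw [show N + 2 - 1 = N + 1 by omega] at h1 h2 ⊢
  intro k
  induction k using Nat.twoStepInduction with
  | zero =>
    intro _
    rw [P_zero, S_zero]
    simp
  | one =>
    intro _
    simp only [P, show N + 1 - 1 = N by omega, S_one]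
    have h3 : S x (1 + 1) = x := by
      show S x (0 + 2) = x
      rw [S_succ, S_one, S_zero]; ring
    have h4 := S_succ x N
    rw [h3]
    linear_combination h1 - h4
  | more k ih1 ih2 =>
    intro hk
    have e1 := ih1 (by omega)
    have e2 := ih2 (by omega)
    have e3 : N + 1 - k = (N + 1 - (k + 2)) + 2 := by omega
    have e4 : N + 1 - (k + 1) = (N + 1 - (k + 2)) + 1 := by omega
    have e5 := S_succ x (N + 1 - (k + 2))
    rw [P_succ, S_succ]
    rw [e3] at e1
    rw [e4] at e2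
    linear_combination x * e2 - e1 - e5

end

end Pool.Agent.D0H13.Tad
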