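import Pool.Agent.D0H13.Tad.Nodes

/-! The cycle part of the matrix and of its pseudo-inverses at the nodes. -/

set_option autoImplicit false
open Finset

namespace Pool.Agent.D0H13.Tad

/-- the cycle part of the matrix (vertices `0, …, M`) -/
noncomputable def ac (M : ℕ) (a a0 β : ℝ) (i l : ℕ) : ℝ :=
  if i = 0 then
    (if l = 0 then a0 else 0) + (if l = 1 then β else 0) + (if l = M then β else 0)
  else if i = 1 then
    (if l = 0 then β else 0) + (if l = 1 then a else 0) + (if l = 2 then 1 else 0)
  else if i = M then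
    (if l = 0 then β else 0) + (if l = M - 1 then 1 else 0) + (if l = M then a else 0)
  else (if l = i - 1 then 1 else 0) + (if l = i + 1 then 1 else 0)

variable {M : ℕ} {a a0 β : ℝ}

theorem ac_symm (hM : 4 ≤ M) (i l : ℕ) (hi : i ≤ M) (hl : l ≤ M) :
    ac M a a0 β i l = ac M a a0 β l i := by
  unfold ac
  split_ifs <;> first | omega | ring1

theorem row_sum (hM : 4 ≤ M) (F : ℕ → ℝ) (i : ℕ) (hi : i ≤ M) :
    ∑ l ∈ range (M + 1), ac M a a0 β i l * F l =
      if i = 0 then a0 * F 0 + β * F 1 + β * F M
      else if i = 1 then β * F 0 + a * F 1 + F 2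
      else if i = M then β * F 0 + F (M - 1) + a * F M
      else F (i - 1) + F (i + 1) := by
  unfold ac
  have h1 : 1 < M + 1 := by omega
  have h2 : 2 < M + 1 := by omega
  have h3 : M - 1 < M + 1 := by omega
  split_ifs with h4 h5 h6
  · simp [add_mul, Finset.sum_add_distrib, ite_mul, h1]
  · simp [add_mul, Finset.sum_add_distrib, ite_mul, h1, h2]
  · simp [add_mul, Finset.sum_add_distrib, ite_mul, h3]
  · have h7 : i - 1 < M + 1 := by omega
    have h8 : i + 1 < M + 1 := by omega
    simp [add_mul, Finset.sum_add_distrib, ite_mul, h7, h8]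

/-- the cycle part of the pseudo-inverse -/
noncomputable def kx (a β x : ℝ) (i j : ℕ) : ℝ :=
  if i = 0 then (if j = 0 then 0 else -(P a x (j - 1)) / (2 * β))
  else if j = 0 then -(P a x (i - 1)) / (2 * β)
  else -(1 / 2) * S x ((i - j) + (j - i))

variable {x : ℝ}

theorem kx_symm (i j : ℕ) : kx a β x i j = kx a β x j i := by
  unfold kx
  rw [add_comm (i - j) (j - i)]
  split_ifs <;> rfl

theorem kx_zero_zero : kx a β x 0 0 = 0 := by simp [kx]
theorem kx_z {j : ℕ} (k : ℕ) (h : j = k + 1) : kx a β x 0 j = -(P a x k) / (2 * β) := by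
  simp [kx, h]
theorem kx_s {j : ℕ} (k : ℕ) (h : j = k + 1) : kx a β x j 0 = -(P a x k) / (2 * β) := by
  simp [kx, h]
theorem kx_d {i j : ℕ} (d : ℕ) (hi : 1 ≤ i) (hj : 1 ≤ j) (h : j = i + d ∨ i = j + d) :
    kx a β x i j = -(1 / 2) * S x d := by
  unfold kx
  rw [if_neg (by omega), if_neg (by omega)]
  congr 2
  omega

theorem P_one : P a x 1 = x - a := by
  have h3 : S x (1 + 1) = x := by
    show S x (0 + 2) = x
    rw [S_succ, S_one, S_zero]; ring
  simp only [P, S_one]
  rw [h3]; ring

/-- the equation `(Â M)_{ij} = x M_{ij} - δ_{ij}` for cycle vertices; `g = ∑ s_t ^ 2 / (x - ν_t)` -/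
theorem row_eq (hM : 4 ≤ M) (hβ : β ≠ 0) (hN : Node M a x) (g : ℝ)
    (hg : x - a0 - g = β ^ 2 * S x (M - 1)) (i j : ℕ) (hi : i ≤ M) (hj : j ≤ M) :
    ∑ l ∈ range (M + 1), ac M a a0 β i l * kx a β x l j + (if i = 0 then g * kx a β x 0 j else 0) =
      x * kx a β x i j - (if i = j then 1 else 0) := by
  have h0 : P a x 0 = 1 := P_zero
  have h1 : P a x 1 = x - a := P_one
  have hr := P_refl (by omega) hN
  have hk := P_kappa (by omega) hN
  rw [row_sum hM _ i hi]
  rcases Nat.eq_zero_or_pos i with rfl | hi0
  · -- row 0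
    simp only [if_true]
    rcases Nat.eq_zero_or_pos j with rfl | hj0
    · have e := hr 0 (by omega)
      rw [show M - 1 - 0 = M - 1 by omega, h0] at e
      rw [kx_zero_zero, kx_s 0 rfl, kx_s (M - 1) (by omega), h0, ← e]
      simp only [if_true]
      field_simp
      ring
    · have e := hk (j - 1) (by omega)
      rw [if_neg (by omega), kx_z (j - 1) (by omega), kx_d (j - 1) le_rfl hj0 (by omega),
        kx_d (M - j) (by omega) hj0 (by omega)]
      rw [show M - 1 - (j - 1) = M - j by omega] at e
      have e2 : g = x - a0 - β ^ 2 * S x (M - 1) := by linarith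
      rw [e2]
      field_simp
      linear_combination β ^ 2 * e
  rcases eq_or_ne i 1 with rfl | hi1
  · -- row 1
    simp only [one_ne_zero, if_false, if_true]
    rcases Nat.eq_zero_or_pos j with rfl | hj0
    · rw [kx_zero_zero, kx_s 0 rfl, kx_s 1 rfl, h0, h1]
      simp only [one_ne_zero, if_false]
      field_simp
      ring
    · rw [kx_z (j - 1) (by omega), kx_d (j - 1) le_rfl hj0 (by omega)]
      rcases eq_or_ne j 1 with rfl | hj1
      · rw [kx_d 1 (by omega) le_rfl (by omega)]
        simp only [if_true, Nat.sub_self, h0, S_zero, S_one]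
        field_simp
        ring
      · rw [kx_d (j - 2) (by omega) hj0 (by omega), if_neg (by omega)]
        obtain ⟨k, rfl⟩ : ∃ k, j = k + 2 := ⟨j - 2, by omega⟩
        rw [show k + 2 - 1 = k + 1 by omega, show k + 2 - 2 = k by omega]
        have e3 := S_succ x k
        simp only [P, e3]
        field_simp
        ring
  have hi0' : ¬ i = 0 := by omega
  simp only [hi0', hi1, if_false, add_zero]
  rcases eq_or_ne i M with rfl | hiM
  · -- row M
    rw [if_pos rfl]
    rcases Nat.eq_zero_or_pos j with rfl | hj0
    · have e := hr 0 (by omega)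
      have e' := hr 1 (by omega)
      rw [show i - 1 - 0 = i - 1 by omega, h0] at e
      rw [show i - 1 - 1 = i - 2 by omega, h1] at e'
      rw [kx_zero_zero, kx_s (i - 2) (by omega), kx_s (i - 1) (by omega), ← e, ← e', if_neg hi0']
      field_simp
      ring
    · have e := hr (j - 1) (by omega)
      rw [show i - 1 - (j - 1) = i - j by omega] at e
      rw [kx_z (j - 1) (by omega), kx_d (i - j) hi0 hj0 (by omega), e]
      rcases eq_or_ne j i with rfl | hj1
      · rw [kx_d 1 (by omega) hj0 (by omega), if_pos rfl, Nat.sub_self, h0, S_zero, S_one]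
        field_simp
        ring
      · rw [kx_d (i - 1 - j) (by omega) hj0 (by omega), if_neg (fun h => hj1 h.symm)]
        obtain ⟨k, hk'⟩ : ∃ k, i - j = k + 1 := ⟨i - j - 1, by omega⟩
        rw [hk', show i - 1 - j = k by omega]
        have e3 := S_succ x k
        simp only [P, e3]
        field_simp
        ring
  · -- middle row
    rw [if_neg hiM]
    rcases Nat.eq_zero_or_pos j with rfl | hj0
    · rw [kx_s (i - 2) (by omega), kx_s i rfl, kx_s (i - 1) (by omega), if_neg (by omega)]
      obtain ⟨k, rfl⟩ : ∃ k, i = k + 2 := ⟨i - 2, by omega⟩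
      rw [show k + 2 - 2 = k by omega, show k + 2 - 1 = k + 1 by omega, P_succ]
      field_simp
      ring
    · rcases lt_trichotomy i j with h | h | h
      · rw [kx_d (j - i + 1) (by omega) hj0 (by omega), kx_d (j - i - 1) (by omega) hj0 (by omega),
          kx_d (j - i) (by omega) hj0 (by omega), if_neg (by omega)]
        obtain ⟨k, hk'⟩ : ∃ k, j - i = k + 1 := ⟨j - i - 1, by omega⟩
        rw [hk', show k + 1 - 1 = k by omega, S_succ]
        ring
      · subst h
        rw [kx_d 1 (by omega) hj0 (by omega), kx_d 1 (by omega) hj0 (by omega),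
          kx_d 0 (by omega) hj0 (by omega), if_pos rfl, S_one, S_zero]
        ring
      · rw [kx_d (i - j - 1) (by omega) hj0 (by omega), kx_d (i - j + 1) (by omega) hj0 (by omega),
          kx_d (i - j) (by omega) hj0 (by omega), if_neg (by omega)]
        obtain ⟨k, hk'⟩ : ∃ k, i - j = k + 1 := ⟨i - j - 1, by omega⟩
        rw [hk', show k + 1 - 1 = k by omega, S_succ]
        ring

/-- zero pattern of the cycle part -/
theorem ac_ne_zero (hM : 4 ≤ M) (hβ : β ≠ 0) (i l : ℕ) (hi : i ≤ M) (hl : l ≤ M) (hil : i ≠ l) :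
    ac M a a0 β i l ≠ 0 ↔ (i + 1 = l ∨ l + 1 = i ∨ (i = 0 ∧ l + 1 = M + 1) ∨
      (l = 0 ∧ i + 1 = M + 1)) := by
  unfold ac
  by_cases h1 : i = 0
  · subst h1
    rw [if_pos rfl, if_neg (by omega)]
    by_cases h2 : l = 1
    · rw [if_pos h2, if_neg (by omega)]
      simp [hβ, h2]
    · rw [if_neg h2]
      by_cases h3 : l = M
      · rw [if_pos h3]
        simp [hβ, h3]
      · rw [if_neg h3]
        simp only [add_zero, ne_eq, not_true_eq_false, false_iff]
        omega
  · rw [if_neg h1]
    by_cases h2 : i = 1
    · rw [if_pos h2, if_neg (by omega : ¬ l = 1)]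
      by_cases h3 : l = 0
      · rw [if_pos h3, if_neg (by omega)]
        simp [hβ, h3, h2]
      · rw [if_neg h3]
        by_cases h4 : l = 2
        · simp [h4, h2]
        · rw [if_neg h4]
          simp only [add_zero, ne_eq, not_true_eq_false, false_iff]
          omega
    · rw [if_neg h2]
      by_cases h3 : i = M
      · rw [if_pos h3, if_neg (by omega : ¬ l = M)]
        by_cases h4 : l = 0
        · rw [if_pos h4, if_neg (by omega)]
          simp [hβ, h4, h3]
        · rw [if_neg h4]
          by_cases h5 : l = M - 1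
          · rw [if_pos h5]
            simp only [zero_add, add_zero, ne_eq, one_ne_zero, not_false_eq_true, true_iff]
            omega
          · rw [if_neg h5]
            simp only [add_zero, ne_eq, not_true_eq_false, false_iff]
            omega
      · rw [if_neg h3]
        by_cases h4 : l = i - 1
        · rw [if_pos h4, if_neg (by omega)]
          simp only [add_zero, ne_eq, one_ne_zero, not_false_eq_true, true_iff]
          omega
        · rw [if_neg h4]
          by_cases h5 : l = i + 1
          · rw [if_pos h5]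
            simp only [zero_add, ne_eq, one_ne_zero, not_false_eq_true, true_iff]
            omega
          · rw [if_neg h5]
            simp only [add_zero, ne_eq, not_true_eq_false, false_iff]
            omega

end Pool.Agent.D0H13.Tad
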